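import Mathlib

set_option autoImplicit false
open Set Filter Topology Function

namespace Pool.Agent.Results.MP_9624c8_gt.No

/-- `B` is null-finite: for some null-sequence `x`, every translate meets `B` at finitely many indices. -/
def NullFinite {X : Type} [Group X] [TopologicalSpace X] (B : Set X) : Prop :=
  ∃ x : ℕ → X, Tendsto x atTop (𝓝 1) ∧ ∀ y, {k | y * x k ∈ B}.Finite

lemma upd (n k : ℕ) : IsOpenMap fun w : ℕ → ℕ => update w n k := fun U hU => by
  have : (fun w : ℕ → ℕ => update w n k) '' U = {v | v n = k} ∩ ⋃ j, (fun w : ℕ → ℕ => update w n j) ⁻¹' U := by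
    ext v
    refine ⟨?_, fun ⟨h, q⟩ => ?_⟩
    · rintro ⟨w, hw, rfl⟩; exact ⟨by simp, mem_iUnion.2 ⟨w n, by simpa⟩⟩
    · obtain ⟨j, hj⟩ := mem_iUnion.1 q
      exact ⟨_, hj, by simp [← show v n = k from h]⟩
  rw [this]
  exact ((isOpen_discrete ({k} : Set ℕ)).preimage (continuous_apply (A := fun _ : ℕ => ℕ) n)).inter
    (isOpen_iUnion fun j => hU.preimage (continuous_id.update n continuous_const))

theorem result (G : ℕ → Type) [∀ n, CommGroup (G n)] [∀ n, TopologicalSpace (G n)] [∀ n, DiscreteTopology (G n)]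
    (hG : ∀ n, Nat.card (G n) = n + 2) (B : ℕ → Set (∀ n, G n)) (hB : ∀ k, @MeasurableSet _ (borel _) (B k))
    (hN : ∀ k, NullFinite (B k)) : ¬ {x | ∀ n, x n ≠ 1} ⊆ ⋃ k, B k := by
  classical
  intro h
  choose x x1 x2 using hN
  have : ∀ n k, ∃ j ≥ k, ∀ c < 2 ^ (Nat.pair n k + 1), x (Nat.unpair n).1 j c = 1 := fun n k =>
    ((eventually_ge_atTop k).and ((eventually_all_finite (finite_Iio _)).2 fun c _ => by
      simpa using tendsto_pi_nhds.1 (x1 (Nat.unpair n).1) c)).exists
  choose κ k1 k2 using this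
  let t : ℕ → ℕ → ∀ c, G c := fun n k => x (Nat.unpair n).1 (κ n k)
  have : ∀ c, ∃ a : G c, ∀ w : ℕ → ℕ, a * ∏ n ∈ Finset.range c, t n (w n) c ≠ 1 := fun c => by
    have := Nat.finite_of_card_ne_zero ((hG c).trans_ne (Nat.succ_ne_zero _))
    have := Fintype.ofFinite (G c)
    obtain ⟨a, -, ha⟩ := Finset.exists_mem_notMem_of_card_lt_card (s := (Finset.range (Nat.log 2 c)).powerset.image
      fun S => (∏ p ∈ S, t (Nat.unpair p).1 (Nat.unpair p).2 c)⁻¹) (t := Finset.univ) (Finset.card_image_le.trans_lt (by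
        rw [Finset.card_powerset, Finset.card_range, Finset.card_univ, ← Nat.card_eq_fintype_card, hG]
        exact Nat.lt_succ_of_le (Nat.pow_log_le_add_one 2 c)))
    refine ⟨a, fun w e => ha (Finset.mem_image.2 ⟨((Finset.range c).image fun n => Nat.pair n (w n)).filter
      (· < Nat.log 2 c), by simp [Finset.subset_iff], ?_⟩)⟩
    rw [Finset.prod_filter_of_ne, Finset.prod_image fun a _ b _ e => (Nat.pair_eq_pair.1 e).1, eq_inv_of_mul_eq_one_left e]
    · simp
    intro p _ q
    by_contra w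
    exact q (k2 _ _ c (by rw [Nat.pair_unpair]; exact (Nat.lt_pow_succ_log_self one_lt_two c).trans_le (by gcongr <;> omega)))
  choose a ha using this
  let φ : (ℕ → ℕ) → ∀ c, G c := fun w c => a c * ∏ n ∈ Finset.range c, t n (w n) c
  have cφ : Continuous φ := continuous_pi fun c => continuous_const.mul (continuous_finset_prod _ fun n _ =>
    (continuous_of_discreteTopology (f := fun k => t n k c)).comp (continuous_apply n))
  have : ∀ k, ∃ U, IsOpen U ∧ φ ⁻¹' B k =ᵇ U := fun k => (MeasurableSet.baireMeasurableSet (by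
    rw [BorelSpace.measurable_eq (α := ℕ → ℕ)]; exact cφ.borel_measurable (hB k))).residualEq_isOpen
  choose U u1 u2 using this
  obtain ⟨w, hw⟩ := (dense_of_mem_residual (countable_iInter_mem.2 u2)).nonempty
  obtain ⟨i, hi⟩ := mem_iUnion.1 (h (ha · w))
  obtain ⟨s, v, v1, v2⟩ := isOpen_pi_iff.1 (u1 i) w ((mem_iInter.1 hw i).mp hi)
  obtain ⟨n, n1, n2⟩ : ∃ n, n ∉ s ∧ (Nat.unpair n).1 = i := ⟨Nat.pair i (s.sup id + 1), fun q =>
    (Nat.lt_succ_of_le (Finset.le_sup (f := id) q)).not_ge (Nat.right_le_pair _ _), by simp⟩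
  obtain ⟨z, z1, z2⟩ := (dense_of_mem_residual (countable_iInter_mem.2 fun k => tendsto_residual_of_isOpenMap
    (by fun_prop) (upd n k) (u2 i))).inter_open_nonempty _ (isOpen_set_pi s.finite_toSet fun j hj => (v1 j hj).1)
      ⟨w, fun j hj => (v1 j hj).2⟩
  refine infinite_of_forall_exists_gt (fun k => ⟨κ n (k + 1), ?_, k1 n (k + 1)⟩)
    (x2 i fun c => a c * ∏ m ∈ (Finset.range c).erase n, t m (z m) c)
  have : φ (update z n (k + 1)) ∈ B i := (mem_iInter.1 z2 (k + 1)).mpr (v2 fun j hj => by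
    simpa [update_of_ne (ne_of_mem_of_not_mem hj n1)] using z1 j hj)
  rw [mem_setOf_eq]
  convert this
  ext c
  simp only [φ, Pi.mul_apply, mul_assoc]
  congr 1
  rw [← Finset.prod_congr rfl fun m hm => by rw [← update_of_ne (Finset.ne_of_mem_erase hm) (k + 1) z]]
  by_cases q : n ∈ Finset.range c
  · rw [← Finset.prod_erase_mul _ _ q]; simp [t, n2]
  · rw [Finset.erase_eq_of_notMem q, ← n2, k2 n _ c ((Nat.lt_succ_of_le ((not_lt.1 (Finset.mem_range.not.1 q)).trans
      (Nat.left_le_pair _ _))).trans Nat.lt_two_pow_self), mul_one]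

end Pool.Agent.Results.MP_9624c8_gt.No
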